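import Pool.Agent.WH.Main

/-!
MP_a9f751_an, Q1: there is a weak Hilbert space `X` (real or complex) such that `B(X)` is not a
Grothendieck space.
-/

set_option autoImplicit false

open Pool.Agent.WH

theorem Pool.Agent.Results.MP_a9f751_an.NotGrothendieck.result (𝕜 : Type) [RCLike 𝕜] :
    ∃ (X : Type) (_ : NormedAddCommGroup X) (_ : NormedSpace 𝕜 X) (_ : CompleteSpace X),
      IsWeakHilbert 𝕜 X ∧ ¬ IsGrothendieck 𝕜 (X →L[𝕜] X) := by
  obtain ⟨X, i1, i2, i3, h⟩ := main_exists 𝕜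
  exact ⟨X, i1, i2, i3, h⟩
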